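import Pool.Agent.WSU.Final2

/-!
# Weak and split F-regularity: pointwise criteria off the special fibre

Let `V` be a regular local ring, `A = V[X_1, ..., X_m]`, `R` an `F`-finite domain of characteristic `p`
which is module-finite over `A ⊆ R` and `ℕ`-graded, with `R_0` local, `V ⊆ R_0` and the `X_i`
homogeneous of positive degree. (For `m = 0` the ring `R` is any `F`-finite local domain which is
module-finite over `V`; by Cohen's theorem this includes all complete local domains.) Suppose that
for every prime `P` of `R` whose contraction to `V` is not the maximal ideal one of the following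
holds:

* (a) there is a finitely generated `R_P`-module `T` such that all `F^e_* R_P` are direct summands of
  finite direct sums of copies of `T` (`FinF`; for example if `R_P` has finite F-representation type,
  `Pool.Agent.WSU.finF_of_ffrt`);
* (b) `R_P` is Gorenstein: the trace ideal of `Hom_A(R, A)` is not contained in `P` (`TrOm`);
* (c) `R_P` is `ℚ`-Gorenstein (`QGy`), and `m = 0`, or the special fibre is Gorenstein in codimension one
  (`SF`), or `R_Q` is Gorenstein for all primes `Q` whose contraction to `V` has height at most one
  (`BC`).

Then, for the ideal `M` generated by the nonunits of `R_0` and the elements of positive degree, `R_M` is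
weakly F-regular iff `R` is weakly F-regular iff `R` is split F-regular.

Idea of the proof. `R` is free over `A` (colon capturing). A system of parameters `x` of `V` is chosen
such that the trace ideal contains the last two `x_i` (`m = 0`: `R` is normal, so the trace ideal has height
at least two), and all `V/(x^t)` are Gorenstein (exchange of one parameter after the other). For every
fixed ideal `(x^t, X^s)` weak F-regularity gives `F^e_* R → R/(x^t, X^s)` which maps a given `c` outside `M`.
At each prime `P` of the kind (a), (b), (c) there is `y ∉ P` such that, uniformly in `e`, linear maps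
`F^e_* R → R/(x_1^(t_1), ..., x_k^c)` can be lifted to `R/(x_1^(t_1), ..., x_(k-1)^(t_(k-1)))` after
multiplication by `y` and by a fixed element `δ ≠ 0` of `F^e_* R` (for (c): such maps are functionals on
`F^e_* ω^(q)`, and the multiplication by `y^q δ` on `ω^(q)` factors through `R`). So a power of `x_k` has this
property. The graded variables are removed by degree reasons.

Architect helper5; modules by helper1, helper8, helper9, helper16, helper19, helper20, helper22,
helper26, helper30, helper45, helper48, helper53, helper54, helper56, helper58, helper64, helper69,
helper71, helper72, helper78, helper85, helper87, helper89, helper90, helper91, helper92, helper96,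
helper98, helper99, and by the authors of the earlier projects WSF, WSG and WSP.
-/

set_option autoImplicit false

namespace Pool.Agent.WSU.Draft.PointwiseCriteria

universe u v

open MvPolynomial Pool.Agent.WSF Pool.Agent.WSP Pool.Agent.WSU

/-- Weak and split F-regularity agree if all points outside the special fibre are of finite F-type,
Gorenstein or `ℚ`-Gorenstein. -/
theorem result (p : ℕ) [Fact p.Prime] (V : Type u) (R : Type v) [CommRing V]
    [IsRegularLocalRing V] [CommRing R] [IsDomain R] [CharP R p] [Algebra V R] (m : ℕ)
    [Algebra (Pol V m) R] [IsScalarTower V (Pol V m) R] [Module.Finite (Pol V m) R]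
    (hinj : Function.Injective (algebraMap (Pol V m) R)) (hF : FFinite p R)
    (𝒜 : ℕ → Submodule V R) [GradedAlgebra 𝒜] (w : Fin m → ℕ) (hw : ∀ i, 0 < w i)
    (hX : ∀ i, algebraMap (Pol V m) R (X i) ∈ 𝒜 (w i))
    (hloc : ∀ x ∈ 𝒜 0, ∀ y ∈ 𝒜 0, IsUnit (x + y) → IsUnit x ∨ IsUnit y)
    (h : ∀ (P : Ideal R) [P.IsPrime], P.comap (algebraMap V R) ≠ IsLocalRing.maximalIdeal V →
      FinF p (Localization.AtPrime P) ∨ (∃ y, y ∉ P ∧ TrOm (Pol V m) R y) ∨
      ((m = 0 ∨ SF V R m w ∨ BC V R m) ∧ ∃ y, y ∉ P ∧ QGy (Pol V m) R y)) :
    ∃ _h : (mx 𝒜).IsPrime, List.TFAE [WeaklyFRegular p (Localization.AtPrime (mx 𝒜)),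
      WeaklyFRegular p R, SplitFRegular p R] :=
  final p V R m hinj hF 𝒜 w hw hX hloc h

end Pool.Agent.WSU.Draft.PointwiseCriteria
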